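import Pool.Agent.W120.WM.Defs2
import Pool.Agent.H370R2.DirGood

/-! WM2-SHIFT (project WM of helper120): the Gamma factor to the right of the critical line. -/

set_option autoImplicit false

open MeasureTheory Filter Topology Set

namespace Pool.Agent.W629.WM

open Pool.Agent.W120.WM

lemma diffG {z : ℂ} (hz : 0 < z.re) : DifferentiableAt ℂ Complex.Gammaℝ z := by
  have h1 := Complex.differentiable_Gammaℝ_inv z
  have h2 : (Complex.Gammaℝ z)⁻¹ ≠ 0 := inv_ne_zero (Complex.Gammaℝ_ne_zero_of_re_pos hz)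
  have h3 := h1.inv h2
  have h4 : (fun s => ((Complex.Gammaℝ s)⁻¹)⁻¹) = Complex.Gammaℝ := by
    funext s
    rw [inv_inv]
  have h5 : (fun s => (Complex.Gammaℝ s)⁻¹)⁻¹ = Complex.Gammaℝ := by
    funext s
    simp
  rw [h5] at h3
  exact h3

theorem shift_big : ∃ C : ℝ, 0 < C ∧ ∀ δ t : ℝ, 0 ≤ δ → δ ≤ 1 / 2 → 1 ≤ |t| →
    ‖Complex.Gammaℝ (⟨1 / 2 + δ, t⟩ : ℂ)‖ ≤
      C * (3 + |t|) ^ δ * ‖Complex.Gammaℝ (⟨1 / 2, t⟩ : ℂ)‖ := by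
  obtain ⟨C, hC0, hC⟩ := H370.DL.logDeriv_Gammaℝ_bound
  refine ⟨Real.exp C, Real.exp_pos _, ?_⟩
  intro δ t h0 h1 ht
  have hlt : 0 ≤ Real.log |t| := Real.log_nonneg ht
  set M : ℝ := 1 / 2 * Real.log |t| + C with hM
  have hd : ∀ x : ℝ, 0 < x → HasDerivAt (fun x : ℝ => Complex.Gammaℝ (⟨x, t⟩ : ℂ))
      (deriv Complex.Gammaℝ (⟨x, t⟩ : ℂ)) x := by
    intro x hx
    have h1 : HasDerivAt (fun x : ℝ => (⟨x, t⟩ : ℂ)) 1 x := by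
      have h2 : HasDerivAt (fun x : ℝ => ((x : ℂ) + t * Complex.I)) 1 x := by
        simpa using (Complex.ofRealCLM.hasDerivAt (x := x)).add_const ((t : ℂ) * Complex.I)
      have h3 : (fun x : ℝ => (⟨x, t⟩ : ℂ)) = fun x : ℝ => ((x : ℂ) + t * Complex.I) := by
        funext x
        rw [Complex.mk_eq_add_mul_I]
      rw [h3]
      exact h2
    have := HasDerivAt.scomp (g₁ := Complex.Gammaℝ) (h := fun x : ℝ => (⟨x, t⟩ : ℂ)) x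
        ((diffG (z := (⟨x, t⟩ : ℂ)) hx).hasDerivAt) h1
    rw [one_smul] at this
    exact this
  have hcont : ContinuousOn (fun x : ℝ => Complex.Gammaℝ (⟨x, t⟩ : ℂ))
      (Icc (1 / 2) (1 / 2 + δ)) := by
    intro x hx
    exact (hd x (by linarith [hx.1])).continuousAt.continuousWithinAt
  have hb : ∀ x ∈ Ico (1 / 2 : ℝ) (1 / 2 + δ), ‖deriv Complex.Gammaℝ (⟨x, t⟩ : ℂ)‖ ≤
      M * ‖Complex.Gammaℝ (⟨x, t⟩ : ℂ)‖ + 0 := by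
    intro x hx
    have hx0 : 0 < x := by linarith [hx.1]
    have h2 := hC (⟨x, t⟩ : ℂ) (by simpa using (by linarith : -1 / 2 ≤ x))
      (by
        show x ≤ 6
        linarith [hx.2]) ht
    have hne : Complex.Gammaℝ (⟨x, t⟩ : ℂ) ≠ 0 := Complex.Gammaℝ_ne_zero_of_re_pos hx0
    have h3 : ‖logDeriv Complex.Gammaℝ (⟨x, t⟩ : ℂ)‖ ≤ M := by
      have h4 := norm_add_le (logDeriv Complex.Gammaℝ (⟨x, t⟩ : ℂ)
        - 1 / 2 * Real.log |(⟨x, t⟩ : ℂ).im|) (1 / 2 * Real.log |(⟨x, t⟩ : ℂ).im|)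
      rw [sub_add_cancel] at h4
      have h5 : ‖((1 / 2 * Real.log |(⟨x, t⟩ : ℂ).im| : ℂ))‖ = 1 / 2 * Real.log |t| := by
        rw [norm_mul, Complex.norm_real, Real.norm_of_nonneg hlt]
        norm_num
      rw [h5] at h4
      rw [hM]
      linarith
    rw [logDeriv_apply, norm_div, div_le_iff₀ (norm_pos_iff.2 hne)] at h3
    linarith
  have key := norm_le_gronwallBound_of_norm_deriv_right_le hcont
    (fun x hx => (hd x (by linarith [hx.1])).hasDerivWithinAt) (le_refl _) hb (1 / 2 + δ)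
      ⟨by linarith, le_rfl⟩
  rw [gronwallBound_ε0] at key
  have h6 : M * (1 / 2 + δ - 1 / 2) ≤ C + Real.log (3 + |t|) * δ := by
    have h7 : Real.log |t| ≤ Real.log (3 + |t|) :=
      Real.log_le_log (by linarith) (by linarith)
    have h8 : Real.log |t| * δ ≤ Real.log (3 + |t|) * δ := mul_le_mul_of_nonneg_right h7 h0
    have h9 : 0 ≤ Real.log |t| * δ := mul_nonneg hlt h0
    have h10 : C * δ ≤ C * 1 := mul_le_mul_of_nonneg_left (by linarith) hC0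
    rw [hM]
    nlinarith
  have h11 : Real.exp (M * (1 / 2 + δ - 1 / 2)) ≤ Real.exp C * (3 + |t|) ^ δ := by
    rw [Real.rpow_def_of_pos (by positivity : (0 : ℝ) < 3 + |t|), ← Real.exp_add]
    exact Real.exp_le_exp.2 h6
  calc ‖Complex.Gammaℝ (⟨1 / 2 + δ, t⟩ : ℂ)‖
      ≤ ‖Complex.Gammaℝ (⟨1 / 2, t⟩ : ℂ)‖ * Real.exp (M * (1 / 2 + δ - 1 / 2)) := key
    _ ≤ ‖Complex.Gammaℝ (⟨1 / 2, t⟩ : ℂ)‖ * (Real.exp C * (3 + |t|) ^ δ) :=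
        mul_le_mul_of_nonneg_left h11 (norm_nonneg _)
    _ = Real.exp C * (3 + |t|) ^ δ * ‖Complex.Gammaℝ (⟨1 / 2, t⟩ : ℂ)‖ := by ring

theorem shift_small : ∃ C : ℝ, 0 < C ∧ ∀ δ t : ℝ, 0 ≤ δ → δ ≤ 1 / 2 → |t| ≤ 1 →
    ‖Complex.Gammaℝ (⟨1 / 2 + δ, t⟩ : ℂ)‖ ≤ C * ‖Complex.Gammaℝ (⟨1 / 2, t⟩ : ℂ)‖ := by
  have hK : IsCompact (Icc (0 : ℝ) (1 / 2) ×ˢ Icc (-1 : ℝ) 1) := isCompact_Icc.prod isCompact_Icc
  have hc : ContinuousOn (fun p : ℝ × ℝ => ‖Complex.Gammaℝ (⟨1 / 2 + p.1, p.2⟩ : ℂ)‖ /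
      ‖Complex.Gammaℝ (⟨1 / 2, p.2⟩ : ℂ)‖) (Icc (0 : ℝ) (1 / 2) ×ˢ Icc (-1 : ℝ) 1) := by
    intro p hp
    have hp1 : 0 ≤ p.1 := hp.1.1
    apply ContinuousAt.continuousWithinAt
    have e1 : ContinuousAt (fun p : ℝ × ℝ => (⟨1 / 2 + p.1, p.2⟩ : ℂ)) p := by
      have h3 : (fun p : ℝ × ℝ => (⟨1 / 2 + p.1, p.2⟩ : ℂ)) =
          fun p : ℝ × ℝ => (((1 / 2 + p.1 : ℝ) : ℂ) + (p.2 : ℂ) * Complex.I) := by
        funext p
        rw [Complex.mk_eq_add_mul_I]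
      rw [h3]
      fun_prop
    have e2 : ContinuousAt (fun p : ℝ × ℝ => (⟨1 / 2, p.2⟩ : ℂ)) p := by
      have h3 : (fun p : ℝ × ℝ => (⟨1 / 2, p.2⟩ : ℂ)) =
          fun p : ℝ × ℝ => (((1 / 2 : ℝ) : ℂ) + (p.2 : ℂ) * Complex.I) := by
        funext p
        rw [Complex.mk_eq_add_mul_I]
      rw [h3]
      fun_prop
    have g1 : ContinuousAt Complex.Gammaℝ (⟨1 / 2 + p.1, p.2⟩ : ℂ) :=
      (diffG (z := (⟨1 / 2 + p.1, p.2⟩ : ℂ)) (by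
        show 0 < 1 / 2 + p.1
        linarith)).continuousAt
    have g2 : ContinuousAt Complex.Gammaℝ (⟨1 / 2, p.2⟩ : ℂ) :=
      (diffG (z := (⟨1 / 2, p.2⟩ : ℂ)) (by
        show (0 : ℝ) < 1 / 2
        norm_num)).continuousAt
    have f1 : ContinuousAt (fun p : ℝ × ℝ => Complex.Gammaℝ (⟨1 / 2 + p.1, p.2⟩ : ℂ)) p :=
      ContinuousAt.comp (g := Complex.Gammaℝ) (f := fun p : ℝ × ℝ => (⟨1 / 2 + p.1, p.2⟩ : ℂ)) g1 e1
    have f2 : ContinuousAt (fun p : ℝ × ℝ => Complex.Gammaℝ (⟨1 / 2, p.2⟩ : ℂ)) p :=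
      ContinuousAt.comp (g := Complex.Gammaℝ) (f := fun p : ℝ × ℝ => (⟨1 / 2, p.2⟩ : ℂ)) g2 e2
    refine ContinuousAt.div f1.norm f2.norm ?_
    exact norm_ne_zero_iff.2 (Complex.Gammaℝ_ne_zero_of_re_pos (by
        show (0 : ℝ) < 1 / 2
        norm_num))
  obtain ⟨C, hC⟩ := hK.exists_bound_of_continuousOn hc
  refine ⟨max C 1, lt_of_lt_of_le one_pos (le_max_right _ _), ?_⟩
  intro δ t h0 h1 ht
  have h2 := hC (δ, t) ⟨⟨h0, h1⟩, ⟨(abs_le.1 ht).1, (abs_le.1 ht).2⟩⟩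
  have hpos : 0 < ‖Complex.Gammaℝ (⟨1 / 2, t⟩ : ℂ)‖ :=
    norm_pos_iff.2 (Complex.Gammaℝ_ne_zero_of_re_pos (by
        show (0 : ℝ) < 1 / 2
        norm_num))
  have h3 : ‖Complex.Gammaℝ (⟨1 / 2 + δ, t⟩ : ℂ)‖ / ‖Complex.Gammaℝ (⟨1 / 2, t⟩ : ℂ)‖ ≤ C :=
    le_trans (Real.le_norm_self _) h2
  rw [div_le_iff₀ hpos] at h3
  exact h3.trans (mul_le_mul_of_nonneg_right (le_max_left _ _) hpos.le)

theorem shift : U_SHIFT := by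
  obtain ⟨C1, hC1, h1⟩ := shift_big
  obtain ⟨C2, hC2, h2⟩ := shift_small
  refine ⟨max C1 C2, lt_max_of_lt_left hC1, ?_⟩
  intro δ t hδ0 hδ1
  have hn : ‖(⟨δ - 1 / 2, t⟩ : ℂ)‖ ≤ ‖(⟨0 - 1 / 2, t⟩ : ℂ)‖ := by
    rw [Complex.norm_def, Complex.norm_def]
    apply Real.sqrt_le_sqrt
    simp only [Complex.normSq_mk]
    nlinarith
  have hr : (1 : ℝ) ≤ (3 + |t|) ^ δ := Real.one_le_rpow (by linarith [abs_nonneg t]) hδ0
  have hG : ‖Complex.Gammaℝ (⟨1 / 2 + δ, t⟩ : ℂ)‖ ≤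
      max C1 C2 * (3 + |t|) ^ δ * ‖Complex.Gammaℝ (⟨1 / 2 + 0, t⟩ : ℂ)‖ := by
    rw [add_zero]
    rcases le_total 1 |t| with ht | ht
    · refine (h1 δ t hδ0 hδ1 ht).trans ?_
      apply mul_le_mul_of_nonneg_right _ (norm_nonneg _)
      exact mul_le_mul_of_nonneg_right (le_max_left _ _) (by linarith)
    · refine (h2 δ t hδ0 hδ1 ht).trans ?_
      apply mul_le_mul_of_nonneg_right _ (norm_nonneg _)
      calc C2 ≤ max C1 C2 := le_max_right _ _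
        _ = max C1 C2 * 1 := by ring
        _ ≤ max C1 C2 * (3 + |t|) ^ δ :=
          mul_le_mul_of_nonneg_left hr (le_trans hC2.le (le_max_right _ _))
  unfold Wg
  calc ‖(⟨δ - 1 / 2, t⟩ : ℂ)‖ * ‖Complex.Gammaℝ (⟨1 / 2 + δ, t⟩ : ℂ)‖
      ≤ ‖(⟨0 - 1 / 2, t⟩ : ℂ)‖ *
        (max C1 C2 * (3 + |t|) ^ δ * ‖Complex.Gammaℝ (⟨1 / 2 + 0, t⟩ : ℂ)‖) :=
        mul_le_mul hn hG (norm_nonneg _) (norm_nonneg _)
    _ = max C1 C2 * (3 + |t|) ^ δ *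
        (‖(⟨0 - 1 / 2, t⟩ : ℂ)‖ * ‖Complex.Gammaℝ (⟨1 / 2 + 0, t⟩ : ℂ)‖) := by ring

end Pool.Agent.W629.WM
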